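import Pool.Agent.Run7.h866.ZP.Seq

/-!
# MP_130685_nt: Zilber-Pink for all but finitely many members, with parameters in sequences of the type
of the factorials, of arbitrary one-parameter families with one degenerate member

`Y(1)^n` is identified with `ℂ^n` by the elliptic modular function `jj = j = E₄³ / Δ`. The problem is the
case `k = 0` of the following theorem on `Y(1)^n × G_m^k`.

**Families.** Let `K ⊂ ℂ` be a countable field and let `P` be an arbitrary finite system of polynomials
with coefficients in `K[t]`, in `n` modular coordinates, `k` torus coordinates and `N` auxiliary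
coordinates. The member `X_t` (`member`) is the set of the points `x` of `Y(1)^n × G_m^k` for which
there is a `y ∈ ℂ^N` such that all polynomials of the system vanish at `(x, y)`, for the given `t`.
So `(X_t)` can be any one-parameter family of subvarieties, or of their images under algebraic maps or
correspondences.

**Tropicalization.** For `α ∈ ℂ` the set `Trop α P` consists of the points `w` of `(ℚ ∪ {∞})^(n+k+N)`
such that for every polynomial of the system the minimum of the numbers `ord_α (coefficient) + β · w`
(over the exponents `β` of its monomials) is attained at two different exponents or is infinite.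

**Types of special subvarieties.** The product `Z × C` of a special subvariety `Z` of `Y(1)^n` and a
coset `C` of an algebraic subgroup of the torus has a type `(cls, d, L)`: the partition `cls` of the
coordinates of `Y(1)^n` which are not constant on `Z` into `r = dim Z` classes, the determinants
`d_i > 0` of the matrices which define `Z`, and the linear subspace `L` of `ℚ^k`, of dimension `dim C`,
which is orthogonal to the characters constant on `C`. A point `w` is compatible with the type
(`Compatible`) if `w_i ≥ 0` for the constant coordinates, for coordinates `i`, `j` in the same class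
either `w_i ≥ 0` and `w_j ≥ 0`, or `w_i < 0`, `w_j < 0` and `d_i d_j w_i w_j` is the square of a rational
number, and the torus coordinates of `w` are a vector in `L`.

**Theorem.** Let `m` be an integer (the dimension of the members) and `D` a finite set of rational
numbers, such that for every type of dimension `r + dim L < n + k - m` there is an element `α` of `D`
such that `Trop α P` contains no compatible point (`GenericRat`). Let `t_0, t_1, t_2, …` be a sequence of
rational numbers with `|t_ν| → ∞`, such that for every `α ∈ D` and every prime number `p` the numerators
of the numbers `t_ν - α` are divisible by bounded powers of `p` only, for `ν` sufficiently large. Then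
for all but finitely many `ν` the member `X_{t_ν}` has no atypical intersection with the products
`Z × C` (`NoAtypical`), that is, every irreducible closed subset of `X_{t_ν} ∩ (Z × C)` has dimension at
most `dim (Z × C) + m - (n + k)`, and the same bound holds for the transcendence degrees of the points of
`X_{t_ν} ∩ (Z × C)` over `K`. The constant coordinates of `Z` can be special points or integral over the
ring `ℤ[Γ]` generated by a given finite set `Γ` of numbers algebraic over `K`, and `C` is a coset by a
point whose coordinates are units over `ℤ[Γ]`, for instance a torsion coset.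

**Examples.** The condition on the powers of `p` is satisfied if the sequence converges in `ℚ_p`, for
every `p`, to a limit different from the elements of `D`: for `t_ν = ν!`, for the least common multiple
of `1, …, ν` and for the product of the first `ν` Fibonacci numbers, if `0 ∉ D` (the limit is `0` for all
`p`), and for their rational perturbations `c + ν!`, if `c ∉ D`. It is also satisfied by the product of
the first `ν` prime numbers if the elements of `D` are `1` or `-1`.

One degenerate parameter is sufficient for every type. These sequences grow fast, and
`TropicalFewExceptions` (starting file; integral parameters, one degenerate parameter), with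
`C (log B)^s` exceptions up to `B`, says nothing about them, as the theorems for all integers with at
least two degenerate parameters for every type. For linear recurrences see
`MP_d83ecd_ag.LinearRecurrences` (this run).

The proof is elementary in this case: as `|t_ν - α|` tends to infinity and its numerator is divisible by
bounded powers of small primes only, the numerator has a prime divisor `p` larger than any given bound
(for almost all `ν`), and `X_{t_ν}` is near to the degenerate member `X_α` at the places above `p`.
-/

set_option autoImplicit false

namespace Pool.Agent.Results.MP_130685_nt.FactorialSequences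

open MvPolynomial Pool.Agent.R424.TG
open Pool.Agent.Y152.RP.FamM (NoAtypical)

/-- For every type `(cls, d, L)` of special subvarieties of dimension less than `n + k - m` there is
an element `α` of `D` such that the tropicalization at `α` has no compatible point. -/
def GenericRat {K : Subfield ℂ} {n k N : ℕ} {κ : Type} (m : ℕ)
    (P : κ → MvPolynomial ((Fin n ⊕ Fin k) ⊕ Fin N) (Polynomial K)) (D : Finset ℚ) : Prop :=
  ∀ (r : ℕ) (cls : Fin n → Option (Fin r)) (d : Fin n → ℕ) (L : Submodule ℚ (Fin k → ℚ)),
    (∀ i, 0 < d i) → r + Module.finrank ℚ L + m < n + k →
      ∃ α ∈ D, ∀ w ∈ Trop (α : ℂ) P, ¬ Compatible cls d L w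

/-- Zilber-Pink for all but finitely many members, with parameters in sequences of the type of the
factorials, of arbitrary one-parameter families of subvarieties of `Y(1)^n × G_m^k` with one
degenerate member. -/
theorem result (K : Subfield ℂ) [Countable K] (κ : Type) [Finite κ] (n k N m : ℕ)
    (P : κ → MvPolynomial ((Fin n ⊕ Fin k) ⊕ Fin N) (Polynomial K)) (D : Finset ℚ)
    (hgen : GenericRat m P D) (Γ : Finset ℂ) (hΓ : ∀ γ ∈ Γ, IsAlgebraic K γ)
    (t : ℕ → ℚ) (hinf : ∀ B : ℚ, {ν : ℕ | |t ν| ≤ B}.Finite)
    (hp : ∀ α ∈ D, ∀ p : ℕ, p.Prime → ∃ e : ℕ, {ν : ℕ | (p : ℤ) ^ e ∣ (t ν - α).num}.Finite) :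
    {ν : ℕ | ¬ NoAtypical (algebraMap (Algebra.adjoin ℤ (Γ : Set ℂ)) ℂ) K m
      (member ((t ν : ℚ) : ℂ) P)}.Finite := by
  classical
  have hDK : ∀ α ∈ D.image (fun a : ℚ => (a : ℂ)), IsAlgebraic K α := by
    intro α hα
    obtain ⟨a, -, rfl⟩ := Finset.mem_image.1 hα
    exact (isAlgebraic_algebraMap (R := ℚ) (A := ℂ) a).tower_top K
  have hfin := Pool.Agent.Run7.h866.ZP.family K κ n k N m P (D.image fun a : ℚ => (a : ℂ)) hDK Γ hΓ
    (Set.range fun ν => ((t ν : ℚ) : ℂ)) fun r cls d L hd hr => by
      obtain ⟨a, ha, hno⟩ := hgen r cls d L hd hr
      refine ⟨{(a : ℂ)}, ?_, Pool.Agent.Run7.h866.ZP.hits_seq t a (hp a ha) hinf, ?_⟩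
      · intro z hz
        rw [Finset.mem_singleton.1 hz]
        exact Finset.mem_image_of_mem _ ha
      · intro z hz
        rw [Finset.mem_singleton.1 hz]
        exact hno
  refine (hfin.preimage' (f := fun ν => ((t ν : ℚ) : ℂ)) fun z _ => ?_).subset fun ν hν =>
    ⟨⟨ν, rfl⟩, hν⟩
  by_cases hz : ∃ ν₀, ((t ν₀ : ℚ) : ℂ) = z
  · obtain ⟨ν₀, rfl⟩ := hz
    refine (hinf |t ν₀|).subset ?_
    intro ν hν
    have h1 : ((t ν : ℚ) : ℂ) = ((t ν₀ : ℚ) : ℂ) := hν
    have h2 : t ν = t ν₀ := by exact_mod_cast h1
    show |t ν| ≤ |t ν₀|
    rw [h2]
  · refine Set.Finite.subset Set.finite_empty ?_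
    intro ν hν
    exact absurd ⟨ν, hν⟩ hz

end Pool.Agent.Results.MP_130685_nt.FactorialSequences
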