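import Pool.Agent.Run7.h972.AW.Mult
import Pool.Agent.Results.MP_130685_nt.RandomOrbits

/-!
# Zilber-Pink in `Y(1)^n` along random orbits of affine maps, for arbitrary families of rational curves

The starting result `RandomOrbits` (whose definitions are used) is about the families of the rational
curves `V (m, u)` in `Y(1)^n = ℂ^n` with the parametrization `x_i = P_i (u; s, t) / (m Q_i (u; s, t))`,
`(s : t) ∈ ℙ¹`, where `P_i`, `Q_i` are arbitrary forms of degree `d ≥ 1` in `(s, t)` whose coefficients are
integral polynomials in finitely many parameters `u_j`, `j ∈ J`, such that the `n` resultants of `P_i`,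
`Q_i` and the resultants of `P_i Q_i`, `P_j Q_j`, `i ≠ j`, are not identically zero, and about the vectors
`(m, u)` of the random orbit of a vector `v ≠ 0` under matrices of determinant one which generate
`SL_r (ℤ/q)`, `r = 1 + |J| ≥ 2`. Here the maps are affine and need not be invertible, `J` may be empty, and
there is no condition on the starting vector.

Let `x ↦ A_j x + b_j`, `j ≤ k`, be a finite family of affine maps of `ℤ^r` (`AffineWalk`) which for all `q`
prime to some `M` are permutations of `(ℤ/q)^r` and generate a transitive group. The determinants of the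
`A_j` are arbitrary nonzero integers. For instance, for `r = 1` (so for `V (m)`, the contraction of one
fixed curve `x_i = P_i (s) / Q_i (s)` by the integer `m`): any finite family of maps `x ↦ a_j x + b_j` of `ℤ`,
`a_j ≠ 0`, two of which do not commute (`Run7.h972.AW.line_walk`), such as `x ↦ 10 x + d` for the `d` in a set
of at least two digits (then `m` runs through the initial segments of a random decimal number with digits
in this set) or `x ↦ 2 x + 1`, `x ↦ 3 x`; in general, random walks on the lattice of all parameters (for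
`A_j = 1`), or random digits of all parameters. For independent and uniformly distributed indices
`w 0, w 1, …` let `c_0 = v`, `c_(t+1) = A_(w t) c_t + b_(w t)`.

Theorem: for every `ε > 0` there is a number `G`, which does not depend on the word and the starting vector,
such that almost surely, for all starting vectors `v`, for all large `N` and for all but `ε N` of the times
`t < N`, for `(m, u) = c_t`

* `V (m, u)` has at most `G` points on special subvarieties of codimension at least two;
* all these points are on the special subvarieties defined by an isogeny of degree at most `G` between two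
  of the coordinates: one finite set of proper special subvarieties of `Y(1)^n` covers the atypical
  intersections of all these curves;
* `V (m, u)` is not contained in a proper special subvariety.

The constants of the special subvarieties are singular moduli or integral over `ℤ[Γ]`, `Γ` a finite set of
algebraic numbers. In particular (there are only countably many families) almost surely, for all starting
vectors, Zilber-Pink holds for ALL families for the curves at all times outside of a set of density zero.

*Proof.* As in the starting result: a prime `p > 16 (d + 1)^4` which divides `m` and no resultant is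
sufficient, and the vectors for which no prime `p ≤ T` can be used are contained in few residue classes
modulo a product `q` of primes. The random orbit of affine maps is equidistributed modulo `q` by the
ergodic theorem for random walks on finite groups (starting library, `Pool.Agent.N24.RW`), applied to the
group of affine permutations (`Run7.h972.AW`).
-/

set_option autoImplicit false

namespace Pool.Agent.Results.MP_130685_nt.RandomAffineOrbits

open H294ZP UpperHalfPlane MeasureTheory Filter
open Pool.Agent.N24.RW (words)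
open Pool.Agent.Results.MP_130685_nt.RandomOrbits
open Run7.h972.AW

section
variable {J : Type} [Fintype J] [DecidableEq J]

open Pool.Agent.Y226.ZR in
theorem result (W : AffineWalk (Option J))
    (n d : ℕ) (hd : 0 < d) (A : Coeffs n d (MvPolynomial J ℤ)) (hA : NoCommonZeros A)
    (Γ : Finset ℂ) (hΓ : ∀ γ ∈ Γ, IsAlgebraic ℚ γ) (ε : ℝ) (hε : 0 < ε) :
    ∃ G : ℕ, ∀ᵐ w ∂(words W.m), ∀ v : Option J → ℤ, ∀ᶠ N : ℕ in atTop,
      ({t : ℕ | t < N ∧ ¬ ZilberPink (Γ : Set ℂ) G (member A (aorb W v w t))}.ncard : ℝ) ≤
        ε * N := by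
  classical
  -- the polynomial
  set R : MvPolynomial J ℤ := MvPolynomial.aeval A (Rr n d) with hR
  have hR0 : R ≠ 0 := by
    rw [hR]
    unfold Rr
    rw [map_mul, map_prod, map_prod]
    refine mul_ne_zero (Finset.prod_ne_zero_iff.2 fun i _ => ?_)
      (Finset.prod_ne_zero_iff.2 fun q hq => ?_)
    · have h1 := rs1_map (MvPolynomial.aeval A : MvPolynomial (Idx n d) ℤ →ₐ[ℤ] MvPolynomial J ℤ).toRingHom
        (MvPolynomial.X : Idx n d → MvPolynomial (Idx n d) ℤ) i
      simp only [AlgHom.toRingHom_eq_coe, RingHom.coe_coe, MvPolynomial.aeval_X] at h1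
      rw [h1]
      exact hA.1 i
    · have h1 := rs2_map (MvPolynomial.aeval A : MvPolynomial (Idx n d) ℤ →ₐ[ℤ] MvPolynomial J ℤ).toRingHom
        (MvPolynomial.X : Idx n d → MvPolynomial (Idx n d) ℤ) q.1 q.2
      simp only [AlgHom.toRingHom_eq_coe, RingHom.coe_coe, MvPolynomial.aeval_X] at h1
      rw [h1]
      exact hA.2 q.1 q.2 (Finset.mem_filter.1 hq).2
  have hReval : ∀ u : J → ℤ, MvPolynomial.eval u R =
      MvPolynomial.eval (fun a => MvPolynomial.eval u (A a)) (Rr n d) := by
    intro u
    rw [hR, MvPolynomial.map_aeval]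
    have e : (MvPolynomial.eval u).comp (algebraMap ℤ (MvPolynomial J ℤ)) = RingHom.id ℤ :=
      Subsingleton.elim _ _
    rw [e]
    rfl
  have hden : ∀ γ : ℂ, ∃ m : ℕ, γ ∈ Γ → 0 < m ∧ IsIntegral ℤ ((m : ℂ) * γ) := by
    intro γ
    by_cases h : γ ∈ Γ
    · obtain ⟨m, hm⟩ := exists_den (hΓ γ h)
      exact ⟨m, fun _ => hm⟩
    · exact ⟨0, fun h' => absurd h' h⟩
  choose M hM using hden
  set T₀ := 16 * (d + 1) ^ 4 + ∑ γ ∈ Γ, M γ with hT₀
  obtain ⟨T', hT'⟩ := mult_aorb W hR0 T₀ ε hε
  have hpr : ∀ p : ℕ, ∃ G : ℕ, p.Prime → 16 * (d + 1) ^ 4 < p →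
      ∀ (m : ℤ) (c : Coeffs n d ℤ), m ≠ 0 → (p : ℤ) ∣ m →
      ¬ (p : ℤ) ∣ MvPolynomial.eval c (Rr n d) →
      ∀ Γ : Finset ℂ, (∀ γ ∈ Γ, ∃ m : ℕ, ¬ p ∣ m ∧ IsIntegral ℤ ((m : ℂ) * γ)) →
      ZilberPink (Γ : Set ℂ) G (curve m c) := by
    intro p
    by_cases h : p.Prime ∧ 16 * (d + 1) ^ 4 < p
    · obtain ⟨G, hG⟩ := good_of_prime n d hd p h.1 h.2
      exact ⟨G, fun _ _ => hG⟩
    · exact ⟨0, fun h1 h2 => absurd ⟨h1, h2⟩ h⟩
  choose Gp hGp using hpr
  refine ⟨∑ p ∈ Finset.range (T' + 1), Gp p, ?_⟩
  filter_upwards [hT'] with w hw v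
  filter_upwards [hw v] with N hN
  refine le_trans ?_ hN
  refine Nat.cast_le.2 (Set.ncard_le_ncard ?_ ((Set.finite_Iio N).subset fun t ht => ht.1))
  rintro t ⟨ht, hbad⟩
  refine ⟨ht, fun ⟨h0, p, hp, hpT₀, hpT', hpm, hpR⟩ => hbad ?_⟩
  have hpD : 16 * (d + 1) ^ 4 < p := by omega
  have hΓp : ∀ γ ∈ Γ, ∃ m : ℕ, ¬ p ∣ m ∧ IsIntegral ℤ ((m : ℂ) * γ) := by
    intro γ hγ
    obtain ⟨h5, h6⟩ := hM γ hγ
    refine ⟨M γ, fun h7 => ?_, h6⟩
    have h8 := Nat.le_of_dvd h5 h7
    have h9 : M γ ≤ ∑ γ ∈ Γ, M γ := Finset.single_le_sum (fun _ _ => Nat.zero_le _) hγ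
    omega
  have hle : Gp p ≤ ∑ p ∈ Finset.range (T' + 1), Gp p :=
    Finset.single_le_sum (fun _ _ => Nat.zero_le _) (Finset.mem_range.2 (by omega))
  rw [hReval] at hpR
  exact zilberPink_mono hle (hGp p hp hpD _ _ h0 hpm hpR Γ hΓp)

end

end Pool.Agent.Results.MP_130685_nt.RandomAffineOrbits
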