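import Pool.Agent.Results.MP_130685_nt.RandomMaps
import Pool.Agent.Run7.h823.WF.C
import Pool.Agent.Run7.h823.WF.Ex

/-!
# Zilber-Pink in `Y(1)^n` for a positive proportion of the pull-backs under the maps of sparse families of vectors of
# residues: the first `m ^ ε` terms of linear recurrences modulo `m`

As in the starting results `RandomMaps` and `ThinMaps` let `V` be any irreducible subvariety of `ℂ^m`, `m ≥ 1`, let `D` be
any multidegree, and let a vector `c` of integers, indexed by `(j, s, e)`, `j < m`, `s < 2`, `e ≤ D`, give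
the rational map `F_c` from `Y(1)^n = ℂ^n` to `ℂ^m` with the numerators `∑_e c(j, 0, e) x^e` and the
denominators `∑_e c(j, 1, e) x^e`. In `RandomMaps` the vector `c` runs through the integral points of
boxes, in `ThinMaps` through the integer parts of generalised polynomials. Here `c = c₀ + y_i`, where `y_i`, `i ∈ s`, is an
arbitrary nonempty family of vectors of residues modulo an integer `q` (represented by the least residues) whose Fourier
coefficients at the nonzero frequencies are at most `q ^ (-β)` times their number, `q` large.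

**Theorem.** There is a number `δ > 0`, which depends only on `V`, `D`, a finite set `Γ` of complex
numbers and a residue class `r₀` modulo `Q₀`, such that for ALL such families at least `δ |s|` of the members `c` are in
the given residue class and the pull-back `F_c⁻¹(V)` has the expected dimension and no atypical subvariety: every
irreducible subset `A` of the intersection of the Zariski closure of `F_c⁻¹(V)` with a special subvariety `Z` of `Y(1)^n`
satisfies `dim A ≤ dim Z - (m - dim V)` (`Typical`). The constant coordinates of `Z` can be special points, or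
isogenous to an element of `Γ`, or integral over `ℤ[Γ]`.

The family can be very sparse: examples (of vectors with `r` coordinates) are

* the values `(u_1(n), …, u_r(n))`, `n < N`, of `r` linear recurrences modulo a prime `m` with linearly independent vectors
  of coefficients, as soon as `N ≥ m ^ ε` and the roots and their quotients have orders `≥ m ^ ε`;
* the vectors `(x_1 b_1 ^ n, …, x_r b_r ^ n)`, `n < N`, `N ≥ m ^ ε`, for fixed different integers `b_j ≥ 2` and
  all `x_j ≠ 0`, modulo all but `C X ^ ε` of the primes `m ≤ X`.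

In these examples only `m ^ ε` of the `m ^ r` vectors of the box occur.

From Mathlib: `ZMod.stdAddChar`: the additive character `j ↦ exp (2 π i j / q)` of the integers modulo `q`; `ZMod.val`: the
least residue.

The proof uses the local criterion of the starting file `W282/ZP/Rat` (a residue class modulo some `Q` all
of whose members are good); families with small Fourier coefficients are well distributed modulo all integers up to a power of `q`; the Fourier
coefficients of short recurrences are estimated by the method of Bourgain, Glibichuk and Konyagin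
(`Pool.Agent.Run7.h823.BK`).
-/

set_option autoImplicit false

namespace Pool.Agent.Results.MP_130685_nt.ResidueVectors

open H294ZP UpperHalfPlane MvPolynomial Pool.Agent.W282.ZP RandomMaps
open Finset (range)

/-- The Fourier coefficients of the vectors of residues `y i`, `i ∈ s`, modulo `q` at the nonzero frequencies are at most
`η` times the number of the vectors: `|∑ i ∈ s, e(h·y_i / q)| ≤ η |s|` for all vectors `h ≠ 0` modulo `q`. -/
def Flat {τ ι : Type} [Fintype ι] (q : ℕ) [NeZero q] (η : ℝ) (s : Finset τ) (y : τ → ι → ZMod q) : Prop :=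
  ∀ h : ι → ZMod q, h ≠ 0 → ‖∑ i ∈ s, (ZMod.stdAddChar (∑ j, h j * y i j) : ℂ)‖ ≤ η * s.card

/-- The integral vector `c₀ + y_i`, with the least residues `0 ≤ y_i < q`. -/
def vec {τ ι : Type} {q : ℕ} (y : τ → ι → ZMod q) (c₀ : ι → ℤ) (i : τ) (j : ι) : ℤ := c₀ j + ((y i j).val : ℕ)

/-- The pull-back of `V ⊂ ℂ^m` under the rational map with the coefficient vector `c` has only typical
intersections with the special subvarieties of `Y(1)^n`. -/
def Typical {n m : ℕ} {D : Fin n → ℕ} (V : Set (Fin m → ℂ)) (Γ : Finset ℂ) (c : Coeffs m D) : Prop :=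
  ∀ (r : ℕ) (Z : ModularDatum Γ n r) (A : Set (Fin n → ℂ)), A ⊆ zcl (pullback c V) →
    A ⊆ Z.locus → (idealOf A).IsPrime → zdim A + (m : Cardinal) ≤ zdim V + (r : Cardinal)

/-- The local criterion: all members of a residue class are good (copied from the starting file `ThinMaps`). -/
theorem exists_class {n m : ℕ} (V : Set (Fin m → ℂ)) (hV : (idealOf V).IsPrime) (D : Fin n → ℕ)
    (Γ : Finset ℂ) (Q₀ : ℕ) (hQ₀ : 0 < Q₀) (c₀ : Coeffs m D) :
    ∃ (Q : ℕ) (G : Coeffs m D), 0 < Q ∧ ∀ c : Coeffs m D, (∀ k, (Q : ℤ) ∣ c k - G k) →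
      (∀ k, (Q₀ : ℤ) ∣ c k - c₀ k) ∧ Typical V Γ c := by
  classical
  have hfin : Algebra.trdeg ℂ (MvPolynomial (Fin m) ℂ ⧸ idealOf V) < Cardinal.aleph0 :=
    trdeg_lt_aleph0_of_finiteType
  obtain ⟨d, hd⟩ := Cardinal.lt_aleph0.1 hfin
  obtain ⟨Q, G, hQ, hmain⟩ := exists_class_rat D (idealOf V) hd Γ Q₀ hQ₀ c₀
  refine ⟨Q, G, hQ, fun c hc => ?_⟩
  obtain ⟨hc0, hkey⟩ := hmain c hc
  refine ⟨hc0, ?_⟩
  intro r Z A hAW hAZ hA
  obtain ⟨K, _, _, z, hz, T, hT, hdim⟩ := generic_point (idealOf A)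
  have haev : ∀ (j : Fin m) (s : Fin 2) (y : Fin n → ℂ),
      aeval y (mev (fun e => c (j, s, e)) (X : Fin n → MvPolynomial (Fin n) ℂ)) =
        mev (fun e => c (j, s, e)) y := by
    intro j s y
    have h := map_mev (aeval y : MvPolynomial (Fin n) ℂ →ₐ[ℂ] ℂ).toRingHom
      (fun e => c (j, s, e)) (X : Fin n → MvPolynomial (Fin n) ℂ)
    change aeval y _ = mev _ (fun i => aeval y (X i)) at h
    rw [h]
    simp only [aeval_X]
  have hpull : ∀ (J : Finset (Fin m)) (f : MvPolynomial J ℂ),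
      rename (Subtype.val : J → Fin m) f ∈ idealOf V → aeval z (gpull
        (fun j => mev (fun e => c (j, 0, e)) (X : Fin n → MvPolynomial (Fin n) ℂ))
        (fun j => mev (fun e => c (j, 1, e)) (X : Fin n → MvPolynomial (Fin n) ℂ)) f) = 0 := by
    intro J f hf
    rw [hz, mem_idealOf]
    intro x hx
    refine hAW hx _ (mem_idealOf.2 fun y hy => ?_)
    rw [← aeval_eq_eval]
    change aeval y (gpull _ _ f) = 0
    rw [aeval_gpull _ _ f y (fun j _ => by rw [haev]; exact hy.1 j)]
    simp only [haev]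
    have h1 := mem_idealOf.1 hf _ hy.2
    rw [eval_rename] at h1
    rw [aeval_eq_eval]
    have h2 : eval (fun j : J => mev (fun e => c (j, 0, e)) y / mev (fun e => c (j, 1, e)) y) f
        = 0 := h1
    change _ * eval (fun j : J => mev (fun e => c (j, 0, e)) y / mev (fun e => c (j, 1, e)) y) f
        = 0
    rw [h2, mul_zero]
  have hconst : ∀ i, Z.cls i = none → ∃ c : ℂ, IsIntegral (Algebra.adjoin ℤ (Γ : Set ℂ)) c ∧
      z i = algebraMap ℂ K c := by
    intro i hi
    refine ⟨Z.const i, (Z.allowed i).isIntegral, ?_⟩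
    · have h1 : (X i - C (Z.const i) : MvPolynomial (Fin n) ℂ) ∈ idealOf A := by
        rw [mem_idealOf]
        intro x hx
        obtain ⟨w, hw⟩ := hAZ hx
        have h2 := (hw i).1 hi
        simp only [map_sub, eval_X, eval_C]
        exact sub_eq_zero.2 h2
      have h2 := (hz _).2 h1
      rw [map_sub, aeval_X, aeval_C, sub_eq_zero] at h2
      exact h2
  have hrel : ∀ i i' l, Z.cls i = some l → Z.cls i' = some l → Polynomial.eval₂
      (Polynomial.aeval (z i) : Polynomial ℂ →ₐ[ℂ] K).toRingHom (z i')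
        (Psi ((Z.mat i).det * (Z.mat i').det).toNat) = 0 := by
    intro i i' l hi hi'
    rw [← aeval_relPoly, hz, mem_idealOf]
    intro x hx
    obtain ⟨w, hw⟩ := hAZ hx
    obtain ⟨w1, h1, h2⟩ := (hw i).2 l hi
    obtain ⟨w2, h3, h4⟩ := (hw i').2 l hi'
    exact eval_relPoly_eq_zero (Z.det_pos i) (Z.det_pos i') h1 h3 h2 h4
  have hN : ∀ i i', 0 < ((Z.mat i).det * (Z.mat i').det).toNat := by
    intro i i'
    have := mul_pos (Z.det_pos i) (Z.det_pos i')
    omega
  have hfinal := hkey K z hpull r Z.cls _ hN hconst hrel T hT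
  have h1 : zdim A ≤ (T.card : Cardinal) := hdim
  calc zdim A + (m : Cardinal) ≤ (T.card : Cardinal) + (m : Cardinal) := by gcongr
    _ = ((T.card + m : ℕ) : Cardinal) := by push_cast; rfl
    _ ≤ ((r + d : ℕ) : Cardinal) := by exact_mod_cast hfinal
    _ = zdim V + (r : Cardinal) := by
      rw [zdim, hd]; push_cast; rw [add_comm]

/-- A family of vectors of residues with small Fourier coefficients has the right proportion in every residue class. -/
theorem many {ι : Type} [Fintype ι] {β : ℝ} (hβ : 0 < β) (Q : ℕ) (hQ : 0 < Q) (G : ι → ℤ) (T : (ι → ℤ) → Prop)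
    (hT : ∀ c : ι → ℤ, (∀ k, (Q : ℤ) ∣ c k - G k) → T c) :
    ∃ q₀ : ℕ, ∀ (q : ℕ) [NeZero q], q₀ ≤ q → ∀ (τ : Type) (s : Finset τ) (y : τ → ι → ZMod q),
      Flat q ((q : ℝ) ^ (-β)) s y → ∀ b : ι → ℤ,
      1 / (2 * (Q : ℝ) ^ Fintype.card ι) * (s.card : ℝ) ≤ (({i : τ | i ∈ s ∧ T (vec y b i)}.ncard : ℕ) : ℝ) := by
  classical
  obtain ⟨q₁, h1⟩ := Pool.Agent.Run7.h823.WF.wellF_ev ι hβ
  have hev : ∀ᶠ N : ℕ in Filter.atTop, (Q : ℝ) ≤ (N : ℝ) ^ Pool.Agent.Run7.h823.WF.ex ι β :=
    ((tendsto_rpow_atTop (Pool.Agent.Run7.h823.WF.ex_pos ι hβ)).comp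
      tendsto_natCast_atTop_atTop).eventually_ge_atTop _
  obtain ⟨q₂, h2⟩ := Filter.eventually_atTop.mp hev
  refine ⟨max q₁ q₂, fun q _ hq τ s y hf b => ?_⟩
  rcases s.eq_empty_or_nonempty with he | hne
  · subst he
    simp
  have hw := h1 τ q ((le_max_left _ _).trans hq) s y hne hf b Q (h2 q ((le_max_right _ _).trans hq))
  have hd := hw.dist Q hQ (by omega) (Pool.Agent.Y722.HS.red Q G)
  have hs : (0 : ℝ) < s.card := by exact_mod_cast hw.pos
  obtain ⟨M, hM⟩ : ∃ M : ℝ, M = (Q : ℝ) ^ Fintype.card ι := ⟨_, rfl⟩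
  have hM0 : 0 < M := by rw [hM]; positivity
  rw [← hM] at hd ⊢
  have h3 : (1 : ℝ) / (2 * Q + 1) ≤ 1 / 2 := by
    have : (1 : ℝ) ≤ Q := by exact_mod_cast hQ
    apply one_div_le_one_div_of_le (by norm_num); linarith
  have h4 := (abs_le.1 hd).1
  have h5 : 1 / (2 * M) ≤ ((s.filter fun i => Pool.Agent.Y722.HS.red Q (vec y b i) =
      Pool.Agent.Y722.HS.red Q G).card : ℝ) / s.card := by
    have h6 : 1 / (2 * (Q : ℝ) + 1) * (1 / M) ≤ 1 / 2 * (1 / M) :=
      mul_le_mul_of_nonneg_right h3 (by positivity)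
    have h7 : 1 / (2 * M) = 1 / 2 * (1 / M) := by field_simp
    rw [h7]
    have h8 : 1 / M - 1 / (2 * (Q : ℝ) + 1) * (1 / M) ≤ ((s.filter fun i => Pool.Agent.Y722.HS.red Q (vec y b i) =
      Pool.Agent.Y722.HS.red Q G).card : ℝ) / s.card := by
      have h9 : ((s.filter fun i => Pool.Agent.Y722.HS.red Q (vec y b i) =
        Pool.Agent.Y722.HS.red Q G).card : ℝ) = ((s.filter fun i => Pool.Agent.Y722.HS.red Q
          (fun j => b j + ((y i j).val : ℕ)) = Pool.Agent.Y722.HS.red Q G).card : ℝ) := rfl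
      rw [h9]
      linarith
    linarith
  rw [le_div_iff₀ hs] at h5
  refine h5.trans (Nat.cast_le.2 ?_)
  have hfin : {i : τ | i ∈ s ∧ T (vec y b i)}.Finite := (Finset.finite_toSet s).subset fun t ht => ht.1
  rw [← Set.ncard_coe_finset]
  refine Set.ncard_le_ncard ?_ hfin
  intro t ht
  rw [Finset.mem_coe, Finset.mem_filter] at ht
  refine ⟨ht.1, hT _ fun k => ?_⟩
  have h6 := congrFun ht.2 k
  simp only [Pool.Agent.Y722.HS.red] at h6
  rw [← ZMod.intCast_zmod_eq_zero_iff_dvd, Int.cast_sub, h6, sub_self]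

/-- **Theorem.** (1) For every irreducible `V ⊂ ℂ^m`, `m ≥ 1`, every multidegree `D`, every finite set `Γ` and every
residue class `r₀` modulo `Q₀` there is `δ > 0` such that for all `β > 0`, all large `q`, all families `y_i`, `i ∈ s`, of
vectors of residues modulo `q`, indexed by the coefficients `(j, s, e)`, with Fourier coefficients at most `q ^ (-β) |s|`,
and all integral vectors `c₀`: for at least `δ |s|` of the `i` the vector `c = c₀ + y_i` is in the residue class `r₀` and
the pull-back of `V` under the rational map `F_c` has only typical intersections with the special subvarieties.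

(2) Examples: short linear recurrences. (3) Examples: the first powers of fixed integers, modulo all but `C X ^ ε` of the
primes `m ≤ X`. -/
theorem result :
    (∀ (n m : ℕ), 0 < m → ∀ V : Set (Fin m → ℂ), (idealOf V).IsPrime → ∀ (D : Fin n → ℕ)
      (Γ : Finset ℂ) (Q₀ : ℕ), 0 < Q₀ → ∀ r₀ : Coeffs m D,
      ∃ δ : ℝ, 0 < δ ∧ ∀ β : ℝ, 0 < β → ∃ q₀ : ℕ, ∀ (q : ℕ) [NeZero q], q₀ ≤ q →
      ∀ (τ : Type) (s : Finset τ) (y : τ → Fin m × Fin 2 × Expo D → ZMod q), Flat q ((q : ℝ) ^ (-β)) s y →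
      ∀ c₀ : Fin m × Fin 2 × Expo D → ℤ,
        δ * s.card ≤ ({i : τ | i ∈ s ∧ (∀ k, (Q₀ : ℤ) ∣ vec y c₀ i k - r₀ k) ∧
          Typical V Γ (vec y c₀ i : Coeffs m D)}.ncard : ℝ)) ∧
    (∀ (k : ℕ) (ε : ℝ), 0 < ε → ∃ β : ℝ, 0 < β ∧ ∃ m₀ : ℕ, ∀ (m : ℕ) [Fact m.Prime], m₀ ≤ m →
      ∀ (ι : Type) [Fintype ι] (c : ι → Fin k → ZMod m) (g : Fin k → (ZMod m)ˣ) (N : ℕ), LinearIndependent (ZMod m) c →
      (∀ i, (m : ℝ) ^ ε ≤ orderOf (g i)) → (∀ i j, i ≠ j → (m : ℝ) ^ ε ≤ orderOf (g i / g j)) → (m : ℝ) ^ ε ≤ N →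
      Flat m ((m : ℝ) ^ (-β)) (range N) (fun n j => ∑ i, c j i * (g i : ZMod m) ^ n)) ∧
    (∀ (ι : Type) [Fintype ι] (ε : ℝ), 0 < ε → ∃ β : ℝ, 0 < β ∧ ∀ b : ι → ℕ, (∀ j, 2 ≤ b j) → Function.Injective b →
      ∃ C : ℝ, ∀ X : ℕ, 1 ≤ X → ∀ Q : Finset ℕ,
      (∀ m ∈ Q, m ≤ X ∧ ∃ _ : Fact m.Prime, ¬ ∀ N : ℕ, (m : ℝ) ^ ε ≤ N → ∀ x : ι → ZMod m, (∀ j, x j ≠ 0) →
        Flat m ((m : ℝ) ^ (-β)) (range N) (fun n j => x j * (b j : ZMod m) ^ n)) →
      (Q.card : ℝ) ≤ C * (X : ℝ) ^ ε) := by
  refine ⟨?_, fun k ε hε => Pool.Agent.Run7.h823.WF.flat_rec' k hε,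
    fun ι _ ε hε => Pool.Agent.Run7.h823.WF.flat_pow' ι hε⟩
  intro n m _ V hV D Γ Q₀ hQ₀ r₀
  classical
  obtain ⟨Q, G, hQ, hclass⟩ := exists_class V hV D Γ Q₀ hQ₀ r₀
  refine ⟨1 / (2 * (Q : ℝ) ^ Fintype.card (Fin m × Fin 2 × Expo D)), by positivity, ?_⟩
  intro β hβ
  exact many hβ Q hQ G (fun c => (∀ k, (Q₀ : ℤ) ∣ c k - r₀ k) ∧ Typical V Γ (c : Coeffs m D)) hclass

end Pool.Agent.Results.MP_130685_nt.ResidueVectors
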