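import Pool.Agent.Run7.h866.ZP.Sum

/-!
# MP_130685_nt: Zilber-Pink for all but finitely many members, with sums of units as parameters, of
arbitrary one-parameter families with one degenerate member

`Y(1)^n` is identified with `ℂ^n` by the elliptic modular function `jj = j = E₄³ / Δ`. The problem is the
case `k = 0` of the following theorem on `Y(1)^n × G_m^k`.

**Families.** Let `K ⊂ ℂ` be a countable field and let `P` be an arbitrary finite system of polynomials
with coefficients in `K[t]`, in `n` modular coordinates, `k` torus coordinates and `N` auxiliary
coordinates. The member `X_t` (`member`) is the set of the points `x` of `Y(1)^n × G_m^k` for which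
there is a `y ∈ ℂ^N` such that all polynomials of the system vanish at `(x, y)`, for the given `t`.
So `(X_t)` can be any one-parameter family of subvarieties, or of their images under algebraic maps or
correspondences.

**Tropicalization.** For `α ∈ ℂ` the set `Trop α P` consists of the points `w` of `(ℚ ∪ {∞})^(n+k+N)`
such that for every polynomial of the system the minimum of the numbers `ord_α (coefficient) + β · w`
(over the exponents `β` of its monomials) is attained at two different exponents or is infinite.

**Types of special subvarieties.** The product `Z × C` of a special subvariety `Z` of `Y(1)^n` and a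
coset `C` of an algebraic subgroup of the torus has a type `(cls, d, L)`: the partition `cls` of the
coordinates of `Y(1)^n` which are not constant on `Z` into `r = dim Z` classes, the determinants
`d_i > 0` of the matrices which define `Z`, and the linear subspace `L` of `ℚ^k`, of dimension `dim C`,
which is orthogonal to the characters constant on `C`. A point `w` is compatible with the type
(`Compatible`) if `w_i ≥ 0` for the constant coordinates, for coordinates `i`, `j` in the same class
either `w_i ≥ 0` and `w_j ≥ 0`, or `w_i < 0`, `w_j < 0` and `d_i d_j w_i w_j` is the square of a rational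
number, and the torus coordinates of `w` are a vector in `L`.

**Parameters.** Let `G` be the multiplicative group generated by a finite set `U` of algebraic numbers
(for instance the `S`-units of a number field), `q ≥ 1` and `b, c_1, …, c_q` algebraic numbers. The
parameters are the sums `t = b + c_1 u_1 + … + c_q u_q`, `u_i ∈ G` (`IsSum`). A number `α` is called a
partial sum if `α = b + ∑_{i ∈ J} c_i u_i` with `u_i ∈ G` and a set `J ≠ {1, …, q}` of indices (for
instance `α = b`).

**Theorem.** Let `m` be an integer (the dimension of the members) and `D` a finite set of algebraic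
numbers which are not partial sums, such that for every type of dimension `r + dim L < n + k - m` there
is an element `α` of `D` such that `Trop α P` contains no compatible point (`Generic`). Then for all but
finitely many of the sums `t = b + c_1 u_1 + … + c_q u_q` the member `X_t` has no atypical intersection
with the products `Z × C` (`NoAtypical`), that is, every irreducible closed subset of `X_t ∩ (Z × C)`
has dimension at most `dim (Z × C) + m - (n + k)`, and the same bound holds for the transcendence
degrees of the points of `X_t ∩ (Z × C)` over `K`. The constant coordinates of `Z` can be special points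
or integral over the ring `ℤ[Γ]` generated by a given finite set `Γ` of numbers algebraic over `K`, and
`C` is a coset by a point whose coordinates are units over `ℤ[Γ]`, for instance a torsion coset.

For instance, with one degenerate parameter, the theorem is about almost all of the numbers
`2^a 3^b + 5^c + 7^d`, `a, b, c, d ∈ ℤ`. The sums are elements of a finitely generated ring, but for all
elements of the ring two degenerate parameters are necessary for every type, and
`TropicalFewExceptions` (starting file; integral parameters, one degenerate parameter) admits
`C (log B)^s` exceptions up to `B`, that is all sums of this kind. For the parameters in the group `G`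
itself (`q = 1`) see `MP_dd1803_nt.ValuesOfRationalFunctions` and `MP_d83ecd_ag.LinearRecurrences` (this
run).

**The arithmetic** (`Pool.Agent.Run7.h866.ZP.Sum`). If `t - α` is invertible in `ℤ[W, t]` then it is an
`S`-unit `v` in a number field, after a specialization of `W`. In the relation
`(b - α) + ∑ c_i u_i - v = 0` the constant term is proportional, with factor in a finite set, to another
term by the unit equation in `q + 2` terms. If this is `v` then there are only finitely many `t`;
otherwise one of the `u_i` belongs to a finite set, and induction applies, because the new constant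
is not zero if `α` is not a partial sum.
-/

set_option autoImplicit false

namespace Pool.Agent.Results.MP_130685_nt.SumsOfUnits

open MvPolynomial Pool.Agent.R424.TG
open Pool.Agent.Y152.RP.FamM (NoAtypical)

/-- `t = b + c_1 u_1 + … + c_q u_q` with elements `u_i` of the multiplicative group `G`. -/
def IsSum {q : ℕ} (b : ℂ) (c : Fin q → ℂ) (G : Subgroup ℂˣ) (t : ℂ) : Prop :=
  ∃ u : Fin q → ℂˣ, (∀ i, u i ∈ G) ∧ t = b + ∑ i, c i * (u i : ℂ)

/-- `α = b + ∑_{i ∈ J} c_i u_i` with elements `u_i` of `G` and a proper subset `J` of the set of
indices. -/
def IsPartialSum {q : ℕ} (b : ℂ) (c : Fin q → ℂ) (G : Subgroup ℂˣ) (α : ℂ) : Prop :=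
  ∃ J : Finset (Fin q), J ≠ Finset.univ ∧ ∃ u : Fin q → ℂˣ, (∀ i, u i ∈ G) ∧
    α = b + ∑ i ∈ J, c i * (u i : ℂ)

/-- Zilber-Pink for all but finitely many members, with sums of units as parameters, of arbitrary
one-parameter families of subvarieties of `Y(1)^n × G_m^k` with one degenerate member. -/
theorem result (K : Subfield ℂ) [Countable K] (κ : Type) [Finite κ] (n k N m : ℕ)
    (P : κ → MvPolynomial ((Fin n ⊕ Fin k) ⊕ Fin N) (Polynomial K)) (D : Finset ℂ)
    (hD : ∀ α ∈ D, IsAlgebraic ℚ α) (hgen : Generic m 1 P D)
    (Γ : Finset ℂ) (hΓ : ∀ γ ∈ Γ, IsAlgebraic K γ)
    (q : ℕ) (hq : 0 < q) (b : ℂ) (c : Fin q → ℂ) (hb : IsAlgebraic ℚ b)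
    (hc : ∀ i, IsAlgebraic ℚ (c i)) (U : Finset ℂˣ) (hU : ∀ u ∈ U, IsAlgebraic ℚ (u : ℂ))
    (hα : ∀ α ∈ D, ¬ IsPartialSum b c (Subgroup.closure (U : Set ℂˣ)) α) :
    {t : ℂ | IsSum b c (Subgroup.closure (U : Set ℂˣ)) t ∧
      ¬ NoAtypical (algebraMap (Algebra.adjoin ℤ (Γ : Set ℂ)) ℂ) K m (member t P)}.Finite := by
  refine Pool.Agent.Run7.h866.ZP.family K κ n k N m P D (fun α hα => (hD α hα).tower_top K) Γ hΓ
    {t | IsSum b c (Subgroup.closure (U : Set ℂˣ)) t} fun r cls d L hd hr => ?_
  obtain ⟨I, hI, hc', hno⟩ := hgen r cls d L hd hr
  obtain ⟨α, hαI⟩ := Finset.card_pos.1 (show 0 < I.card by omega)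
  refine ⟨{α}, by simpa using hI hαI, ?_, fun z hz => ?_⟩
  · refine Pool.Agent.Run7.h866.ZP.hits_sums hq b c hb hc U hU α (hD α (hI hαI)) ?_
    intro J hJ u hu h
    exact hα α (hI hαI) ⟨J, hJ, u, hu, h⟩
  · rw [Finset.mem_singleton.1 hz]
    exact hno α hαI

end Pool.Agent.Results.MP_130685_nt.SumsOfUnits
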